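import Pool.Agent.H24.RD.Targets

set_option autoImplicit false

/-!
# (MAIN) the result from the case of independent generators
-/

namespace Pool.Agent.H24.RD

open NumberField Height Finset

/-- The elements of the big field lie in some level field. -/
theorem main_mem (hLVB : T_LVB) (Γ : Subgroup (AlgebraicClosure ℚ)ˣ)
    (F : IntermediateField ℚ (AlgebraicClosure ℚ)) (S S' : Finset ℕ)
    (hSS : ∀ p ∈ S, p.Prime → p ∈ S')
    (F' : IntermediateField ℚ (AlgebraicClosure ℚ)) [NumberField F']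
    (hFF' : F ≤ F') (r : ℕ) (g : Fin r → (AlgebraicClosure ℚ)ˣ) (γ : Fin r → F')
    (hγg : ∀ i, ((γ i : F') : AlgebraicClosure ℚ) = g i)
    (hdec : ∀ a ∈ Γ, ∃ (x : Fin r → ℤ) (ξ : (AlgebraicClosure ℚ)ˣ) (j : ℕ), 0 < j ∧ ξ ^ j = 1 ∧
      a = ξ * ∏ i, g i ^ x i) (β : AlgebraicClosure ℚ)
    (hβ : β ∈ IntermediateField.adjoin ℚ ((F : Set (AlgebraicClosure ℚ)) ∪
      {z | ∃ n : ℕ, 0 < n ∧ z ^ n = 1} ∪
      {z | ∃ n : ℕ, 0 < n ∧ (∀ p : ℕ, p.Prime → p ∣ n → p ∈ S) ∧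
        ∃ g ∈ Γ, z ^ n = (g : AlgebraicClosure ℚ)})) :
    ∃ N K : ℕ, 0 < N ∧ K ∣ N ∧ (∀ p : ℕ, p.Prime → p ∣ K → p ∈ S') ∧
      β ∈ Lv F' (AlgebraicClosure ℚ) γ N K := by
  have hγ0 : ∀ i, γ i ≠ 0 := by
    intro i h
    have h1 := hγg i
    rw [h] at h1
    exact (g i).ne_zero (by rw [← h1]; rfl)
  have : Algebra.IsAlgebraic ℚ (AlgebraicClosure ℚ) := AlgebraicClosure.isAlgebraic ℚ
  have : Algebra.IsAlgebraic F' (AlgebraicClosure ℚ) := Algebra.IsAlgebraic.tower_top (K := ℚ) F'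
  have hmono : ∀ N K N₁ K₁ : ℕ, 0 < N → 0 < K → N ∣ N₁ → K ∣ K₁ → K₁ ∣ N₁ → 0 < N₁ →
      Lv F' (AlgebraicClosure ℚ) γ N K ≤ Lv F' (AlgebraicClosure ℚ) γ N₁ K₁ := by
    intro N K N₁ K₁ hN hK h1 h2 h3 h4
    exact (hLVB F' (AlgebraicClosure ℚ) r γ hγ0 N K hN hK).2.2.2.2.2 N₁ K₁ h1 h2 h3 h4
  have hjoin : ∀ N₁ K₁ N₂ K₂ : ℕ, 0 < N₁ → 0 < N₂ → K₁ ∣ N₁ → K₂ ∣ N₂ →
      (∀ p : ℕ, p.Prime → p ∣ K₁ → p ∈ S') → (∀ p : ℕ, p.Prime → p ∣ K₂ → p ∈ S') →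
      ∃ N K : ℕ, 0 < N ∧ K ∣ N ∧ (∀ p : ℕ, p.Prime → p ∣ K → p ∈ S') ∧
        Lv F' (AlgebraicClosure ℚ) γ N₁ K₁ ≤ Lv F' (AlgebraicClosure ℚ) γ N K ∧
        Lv F' (AlgebraicClosure ℚ) γ N₂ K₂ ≤ Lv F' (AlgebraicClosure ℚ) γ N K := by
    intro N₁ K₁ N₂ K₂ h1 h2 h3 h4 h5 h6
    have hK₁ := Nat.pos_of_dvd_of_pos h3 h1
    have hK₂ := Nat.pos_of_dvd_of_pos h4 h2
    have hN : 0 < Nat.lcm N₁ N₂ := Nat.lcm_pos h1 h2
    have hd : Nat.lcm K₁ K₂ ∣ Nat.lcm N₁ N₂ :=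
      Nat.lcm_dvd (h3.trans (Nat.dvd_lcm_left _ _)) (h4.trans (Nat.dvd_lcm_right _ _))
    refine ⟨Nat.lcm N₁ N₂, Nat.lcm K₁ K₂, hN, hd, ?_, ?_, ?_⟩
    · intro p hp h
      have h7 : p ∣ K₁ * K₂ := h.trans (Nat.lcm_dvd_mul _ _)
      rcases hp.dvd_mul.mp h7 with h8 | h8
      · exact h5 p hp h8
      · exact h6 p hp h8
    · exact hmono _ _ _ _ h1 hK₁ (Nat.dvd_lcm_left _ _) (Nat.dvd_lcm_left _ _) hd hN
    · exact hmono _ _ _ _ h2 hK₂ (Nat.dvd_lcm_right _ _) (Nat.dvd_lcm_right _ _) hd hN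
  have h1S : ∀ p : ℕ, p.Prime → p ∣ 1 → p ∈ S' := fun p hp h =>
    absurd (Nat.dvd_one.mp h) hp.one_lt.ne'
  induction hβ using IntermediateField.adjoin_induction with
  | mem x hx =>
    rcases hx with (hx | ⟨n, hn, hx⟩) | ⟨n, hn, hnS, a, ha, hx⟩
    · refine ⟨1, 1, one_pos, dvd_rfl, h1S, ?_⟩
      exact (Lv F' (AlgebraicClosure ℚ) γ 1 1).algebraMap_mem ⟨x, hFF' hx⟩
    · refine ⟨n, 1, hn, one_dvd n, h1S, ?_⟩
      exact IntermediateField.subset_adjoin _ _ (Or.inl hx)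
    · obtain ⟨x', ξ, j, hj, hξ, hae⟩ := hdec a ha
      have hth : ∀ i, ∃ θ : AlgebraicClosure ℚ, θ ^ n = (g i : AlgebraicClosure ℚ) := fun i =>
        IsAlgClosed.exists_pow_nat_eq _ hn
      choose θ hθ using hth
      have hθ0 : ∀ i, θ i ≠ 0 := by
        intro i h
        have h1 := hθ i
        rw [h, zero_pow hn.ne'] at h1
        exact (g i).ne_zero h1.symm
      have hnj : 0 < n * j := Nat.mul_pos hn hj
      refine ⟨n * j, n, hnj, Dvd.intro j rfl, fun p hp h => hSS p (hnS p hp h) hp, ?_⟩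
      have hprod0 : ∏ i, θ i ^ x' i ≠ 0 :=
        Finset.prod_ne_zero_iff.mpr fun i _ => zpow_ne_zero _ (hθ0 i)
      have hω : (x / ∏ i, θ i ^ x' i) ^ (n * j) = 1 := by
        have e1 : (∏ i, θ i ^ x' i) ^ n = ∏ i, (g i : AlgebraicClosure ℚ) ^ x' i := by
          rw [← Finset.prod_pow]
          refine Finset.prod_congr rfl fun i _ => ?_
          rw [← zpow_natCast, ← zpow_mul, mul_comm (x' i) (n : ℤ), zpow_mul, zpow_natCast, hθ i]
        have e2 : (a : AlgebraicClosure ℚ) =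
            (ξ : AlgebraicClosure ℚ) * ∏ i, (g i : AlgebraicClosure ℚ) ^ x' i := by
          rw [hae]
          push_cast
          rfl
        have e3 : ∏ i, (g i : AlgebraicClosure ℚ) ^ x' i ≠ 0 :=
          Finset.prod_ne_zero_iff.mpr fun i _ => zpow_ne_zero _ (g i).ne_zero
        rw [pow_mul, div_pow, hx, e1, e2, mul_div_assoc, div_self e3, mul_one]
        rw [← Units.val_pow_eq_pow_val, hξ, Units.val_one]
      have hmem1 : x / ∏ i, θ i ^ x' i ∈ Lv F' (AlgebraicClosure ℚ) γ (n * j) n :=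
        IntermediateField.subset_adjoin _ _ (Or.inl hω)
      have hmem2 : ∏ i, θ i ^ x' i ∈ Lv F' (AlgebraicClosure ℚ) γ (n * j) n := by
        refine prod_mem fun i _ => zpow_mem ?_ _
        refine IntermediateField.subset_adjoin _ _ (Or.inr ⟨i, ?_⟩)
        rw [hθ i, ← hγg i]
        rfl
      have e4 : x = (x / ∏ i, θ i ^ x' i) * ∏ i, θ i ^ x' i := by
        rw [div_mul_cancel₀ _ hprod0]
      rw [e4]
      exact mul_mem hmem1 hmem2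
  | algebraMap x =>
    refine ⟨1, 1, one_pos, dvd_rfl, h1S, ?_⟩
    exact (Lv F' (AlgebraicClosure ℚ) γ 1 1).algebraMap_mem (algebraMap ℚ F' x)
  | add x y hx hy ihx ihy =>
    obtain ⟨N₁, K₁, h1, h2, h3, h4⟩ := ihx
    obtain ⟨N₂, K₂, h5, h6, h7, h8⟩ := ihy
    obtain ⟨N, K, h9, h10, h11, h12, h13⟩ := hjoin N₁ K₁ N₂ K₂ h1 h5 h2 h6 h3 h7
    exact ⟨N, K, h9, h10, h11, add_mem (h12 h4) (h13 h8)⟩
  | inv x hx ihx =>
    obtain ⟨N₁, K₁, h1, h2, h3, h4⟩ := ihx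
    exact ⟨N₁, K₁, h1, h2, h3, inv_mem h4⟩
  | mul x y hx hy ihx ihy =>
    obtain ⟨N₁, K₁, h1, h2, h3, h4⟩ := ihx
    obtain ⟨N₂, K₂, h5, h6, h7, h8⟩ := ihy
    obtain ⟨N, K, h9, h10, h11, h12, h13⟩ := hjoin N₁ K₁ N₂ K₂ h1 h5 h2 h6 h3 h7
    exact ⟨N, K, h9, h10, h11, mul_mem (h12 h4) (h13 h8)⟩

/-- The division group of `Γ` is `Dv`. -/
theorem main_dv (Γ : Subgroup (AlgebraicClosure ℚ)ˣ)
    (F' : IntermediateField ℚ (AlgebraicClosure ℚ))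
    (r : ℕ) (g : Fin r → (AlgebraicClosure ℚ)ˣ) (hg : ∀ i, g i ∈ Γ) (γ : Fin r → F')
    (hγg : ∀ i, ((γ i : F') : AlgebraicClosure ℚ) = g i)
    (hdec : ∀ a ∈ Γ, ∃ (x : Fin r → ℤ) (ξ : (AlgebraicClosure ℚ)ˣ) (j : ℕ), 0 < j ∧ ξ ^ j = 1 ∧
      a = ξ * ∏ i, g i ^ x i) (z : AlgebraicClosure ℚ) :
    z ∈ Dv F' (AlgebraicClosure ℚ) γ ↔
      ∃ n : ℕ, 0 < n ∧ ∃ a ∈ Γ, z ^ n = (a : AlgebraicClosure ℚ) := by
  constructor
  · rintro ⟨hz, n, hn, x, hx⟩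
    refine ⟨n, hn, ∏ i, g i ^ x i, Subgroup.prod_mem _ fun i _ => zpow_mem (hg i) _, ?_⟩
    rw [hx]
    push_cast
    refine Finset.prod_congr rfl fun i _ => ?_
    rw [← hγg i]
    rfl
  · rintro ⟨n, hn, a, ha, hx⟩
    obtain ⟨x', ξ, j, hj, hξ, hae⟩ := hdec a ha
    have hz : z ≠ 0 := by
      rintro rfl
      rw [zero_pow hn.ne'] at hx
      exact a.ne_zero hx.symm
    refine ⟨hz, n * j, Nat.mul_pos hn hj, fun i => x' i * j, ?_⟩
    rw [pow_mul, hx, hae, ← Units.val_pow_eq_pow_val, mul_pow, hξ, one_mul]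
    push_cast
    rw [← Finset.prod_pow]
    refine Finset.prod_congr rfl fun i _ => ?_
    have e : algebraMap F' (AlgebraicClosure ℚ) (γ i) = (g i : AlgebraicClosure ℚ) := hγg i
    rw [e, zpow_mul, zpow_natCast]

theorem pf_MAIN : T_MB → T_BAS → T_LVB → T_HB → T_MAIN := by
  classical
  intro hMB hBAS hLVB _ Γ hΓ F hF S
  obtain ⟨r, g, hg, hind, hdec⟩ := hBAS Γ hΓ
  set F' : IntermediateField ℚ (AlgebraicClosure ℚ) :=
    F ⊔ IntermediateField.adjoin ℚ (Set.range fun i => (g i : AlgebraicClosure ℚ)) with hF'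
  have : FiniteDimensional ℚ F := hF
  have : Algebra.IsAlgebraic ℚ (AlgebraicClosure ℚ) := AlgebraicClosure.isAlgebraic ℚ
  have h1 : FiniteDimensional ℚ (IntermediateField.adjoin ℚ
      (Set.range fun i => (g i : AlgebraicClosure ℚ))) :=
    IntermediateField.finiteDimensional_adjoin fun x _ =>
      (Algebra.IsAlgebraic.isAlgebraic x).isIntegral
  have h2 : FiniteDimensional ℚ F' := IntermediateField.finiteDimensional_sup F _
  have : NumberField F' := { to_charZero := inferInstance, to_finiteDimensional := h2 }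
  have hmem : ∀ i, (g i : AlgebraicClosure ℚ) ∈ F' := fun i =>
    (le_sup_right : _ ≤ F') (IntermediateField.subset_adjoin _ _ ⟨i, rfl⟩)
  let γ : Fin r → F' := fun i => ⟨g i, hmem i⟩
  have hγg : ∀ i, ((γ i : F') : AlgebraicClosure ℚ) = g i := fun i => rfl
  have hγ0 : ∀ i, γ i ≠ 0 := by
    intro i h
    have h1 := hγg i
    rw [h] at h1
    exact (g i).ne_zero (by rw [← h1]; rfl)
  have hMI : MInd F' γ := by
    refine ⟨hγ0, fun x hx => hind x ?_⟩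
    apply Units.ext
    have h3 := congrArg (algebraMap F' (AlgebraicClosure ℚ)) hx
    rw [map_prod, map_one] at h3
    push_cast
    rw [← h3]
    refine Finset.prod_congr rfl fun i _ => ?_
    rw [map_zpow₀]
    rfl
  have : Algebra.IsAlgebraic ℚ (AlgebraicClosure ℚ) := AlgebraicClosure.isAlgebraic ℚ
  have : Algebra.IsAlgebraic F' (AlgebraicClosure ℚ) := Algebra.IsAlgebraic.tower_top (K := ℚ) F'
  set S' : Finset ℕ := insert 2 (S.filter Nat.Prime) with hS'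
  have hSp : ∀ p ∈ S', p.Prime := by
    intro p hp
    rcases Finset.mem_insert.mp hp with h | h
    · rw [h]
      exact Nat.prime_two
    · exact (Finset.mem_filter.mp h).2
  obtain ⟨c, hc, hmain⟩ := hMB F' (AlgebraicClosure ℚ) r γ hMI S' hSp ⟨2, by simp [hS']⟩
  refine ⟨c, hc, ?_⟩
  intro β hβ z hz hβz hnot
  obtain ⟨N, K, hN, hKN, hKS, hmemβ⟩ := main_mem hLVB Γ F S S'
    (fun p hp hpp => Finset.mem_insert_of_mem (Finset.mem_filter.mpr ⟨hp, hpp⟩)) F' le_sup_left r g γ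
    hγg hdec β hβ
  refine hmain N K hN hKN hKS (β * z) ⟨β, hmemβ, left_ne_zero_of_mul hβz, z, ?_, rfl⟩ ?_
  · exact (main_dv Γ F' r g hg γ hγg hdec z).mpr hz
  · intro h
    exact hnot ((main_dv Γ F' r g hg γ hγg hdec _).mp h)

end Pool.Agent.H24.RD
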