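import Pool.Agent.H24.RD.Defs

set_option autoImplicit false

/-!
# Targets
-/

namespace Pool.Agent.H24.RD

open NumberField Height Finset

/-! ## Heights -/

/-- HF: functoriality of the height of a number field. -/
def T_HF : Prop := ∀ (K L : Type) [Field K] [NumberField K] [Field L] [NumberField L] [Algebra K L]
  (x : K), logHeight₁ (algebraMap K L x) = (Module.finrank K L : ℝ) * logHeight₁ x

/-- HA: the absolute height is the height of any number field, normalised. -/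
def T_HA : Prop := ∀ (K Ω : Type) [Field K] [NumberField K] [Field Ω] [CharZero Ω] [Algebra K Ω]
  (x : K), absLogHeight₁ (algebraMap K Ω x) = logHeight₁ x / (Module.finrank ℚ K : ℝ)

/-- HB: the rules for the absolute height. -/
def T_HB : Prop := ∀ (Ω : Type) [Field Ω] [CharZero Ω] [Algebra.IsAlgebraic ℚ Ω],
  (∀ x : Ω, 0 ≤ absLogHeight₁ x) ∧
  (∀ x y : Ω, absLogHeight₁ (x * y) ≤ absLogHeight₁ x + absLogHeight₁ y) ∧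
  (∀ x : Ω, absLogHeight₁ x⁻¹ = absLogHeight₁ x) ∧
  (∀ (x : Ω) (n : ℕ), absLogHeight₁ (x ^ n) = n * absLogHeight₁ x) ∧
  (∀ (x y : Ω) (n : ℕ), 0 < n → x ^ n = 1 → absLogHeight₁ (x * y) = absLogHeight₁ y) ∧
  (∀ (σ : Ω ≃+* Ω) (x : Ω), absLogHeight₁ (σ x) = absLogHeight₁ x) ∧
  (∀ x : Ω, x ≠ 0 → absLogHeight₁ x = 0 → ∃ n : ℕ, 0 < n ∧ x ^ n = 1)

/-- PF: the product formula for a product of differences. -/
def T_PF : Prop := ∀ (M : Type) [Field M] [NumberField M] (p : ℕ), p.Prime →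
  ∀ (ι : Type) [Fintype ι] (U W : ι → M), (∀ i, U i ≠ W i) → ∀ l : ℕ,
  (∀ v : FinitePlace M, v.1 (p : M) < 1 →
    ∃ i, v.1 (U i - W i) ≤ v.1 (p : M) ^ l * (max (v.1 (U i)) 1 * max (v.1 (W i)) 1)) →
  (Module.finrank ℚ M : ℝ) * (l * Real.log p - Fintype.card ι * Real.log 2) ≤
    ∑ i, (logHeight₁ (U i) + logHeight₁ (W i))

/-- POW: `p`-th powers bring elements together. -/
def T_POW : Prop := ∀ (M : Type) [Field M] [CharZero M] (v : AbsoluteValue M ℝ),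
  IsNonarchimedean v → ∀ p : ℕ, p.Prime → v (p : M) < 1 → ∀ T : ℕ, 1 ≤ T → ∀ a b : M,
  v (a - b) ≤ v (p : M) ^ (1 / (T : ℝ)) * (max (v a) 1 * max (v b) 1) → ∀ l : ℕ,
  v (a ^ (p ^ (T + l)) - b ^ (p ^ (T + l))) ≤
    v (p : M) ^ l * (max (v (a ^ (p ^ (T + l)))) 1 * max (v (b ^ (p ^ (T + l)))) 1)

/-! ## The local part -/

/-- VB: basic facts on the valuation. -/
def T_VB : Prop := ∀ (M : Type) [Field M] [NumberField M] (p : ℕ), p.Prime →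
  ∀ v : FinitePlace M, v.1 (p : M) < 1 →
  IsNonarchimedean v.1 ∧ 0 < v.1 (p : M) ∧
  (∀ x : M, IsIntegral ℤ x → v.1 x ≤ 1) ∧
  (∀ m : ℕ, ¬ p ∣ m → v.1 (m : M) = 1) ∧
  (∀ (ρ : M) (a : ℕ), ρ ≠ 1 → ¬ p ∣ a → ρ ^ a = 1 → v.1 (ρ - 1) = 1) ∧
  (∀ (k : ℕ) (ζ : M), 1 ≤ k → IsPrimitiveRoot ζ (p ^ k) →
    wv v.1 p (1 - ζ) = 1 / ((p : ℝ) ^ (k - 1) * (p - 1))) ∧
  (∀ (k l : ℕ) (ζ : M), l ≤ k → IsPrimitiveRoot ζ (p ^ k) →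
    ∑ b ∈ (range (p ^ k)).filter (fun b => b ≠ 0 ∧ p ^ k ∣ p ^ l * b), wv v.1 p (ζ ^ b - 1) = l)

/-- GEN: existence of local generators. -/
def T_GEN : Prop := ∀ (F M : Type) [Field F] [NumberField F] [Field M] [NumberField M]
  [Algebra F M] (p : ℕ), p.Prime → ∀ v : FinitePlace M, v.1 (p : M) < 1 → ∃ x0 : M, IsGen F M v.1 x0

open Classical in
/-- ABS: the coset inequality for integers. -/
def T_ABS : Prop := ∀ (F M : Type) [Field F] [Field M] [CharZero M] [Algebra F M]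
  [FiniteDimensional F M] (v : AbsoluteValue M ℝ), IsNonarchimedean v → ∀ x0 : M,
  IsGen F M v x0 → ∀ y : M, IsIntegral ℤ y → ∀ s : M ≃ₐ[F] M, s y ≠ y → 
    v (s y - y) ≤ ∏ t ∈ univ.filter (fun t : M ≃ₐ[F] M => t y = s y), v (t x0 - x0)

open Classical in
/-- CO: the coset inequality for roots of elements of `F`, in additive form. -/
def T_CO : Prop := ∀ (F M : Type) [Field F] [NumberField F] [Field M] [NumberField M]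
  [Algebra F M] [FiniteDimensional F M] (p : ℕ), p.Prime → ∀ v : FinitePlace M, v.1 (p : M) < 1 →
  ∀ x0 : M, IsGen F M v.1 x0 → ∀ (K : ℕ) (y : M) (g : F), 0 < K → y ≠ 0 →
  y ^ K = algebraMap F M g → v.1 y ≤ 1 → ∀ s : M ≃ₐ[F] M, s y ≠ y → 
    ∑ t ∈ univ.filter (fun t : M ≃ₐ[F] M => t y = s y), wv v.1 p (t x0 - x0)
      ≤ wv v.1 p (s y - y)

/-- TR: traces from fields which contain `p ^ n`-th roots of unity. -/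
def T_TR : Prop := ∀ (F : Type) [Field F] [NumberField F], ∃ D : ℕ, 0 < D ∧
  ∀ (E : Type) [Field E] [NumberField E] [Algebra F E] [FiniteDimensional F E] (p n : ℕ), p.Prime →
  ∀ ζ : E, IsPrimitiveRoot ζ (p ^ n) → 1 ≤ n → ∀ c : E, IsIntegral ℤ c →
  ∃ z : F, IsIntegral ℤ z ∧ (D : F) * Algebra.trace F E c = (p : F) ^ (n - 1) * z

open Classical in
/-- TRC: the product of the differences `x0 - t x0`, `t ζ ≠ ζ`, is divisible by `p ^ (n-1) / D`. -/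
def T_TRC : Prop := ∀ (F : Type) [Field F] [NumberField F], ∃ D : ℕ, 0 < D ∧
  ∀ (M : Type) [Field M] [NumberField M] [Algebra F M] [FiniteDimensional F M] [IsGalois F M]
  (p n : ℕ), p.Prime → ∀ ζ : M, IsPrimitiveRoot ζ (p ^ n) → 1 ≤ n → ∀ x0 : M, IsIntegral ℤ x0 →
  ∃ z : M, IsIntegral ℤ z ∧ ((D : M) * ∏ t ∈ univ.filter (fun t : M ≃ₐ[F] M => t ζ ≠ ζ), (x0 - t x0)
      = (p : M) ^ (n - 1) * z)

open Classical in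
/-- MS: lower bound of the cyclotomic mass. -/
def T_MS : Prop := ∀ (F : Type) [Field F] [NumberField F], ∃ D : ℕ,
  ∀ (M : Type) [Field M] [NumberField M] [Algebra F M] [FiniteDimensional F M] [IsGalois F M]
  (p : ℕ), p.Prime → ∀ v : FinitePlace M, v.1 (p : M) < 1 → ∀ x0 : M, IsGen F M v.1 x0 →
  ∀ (n : ℕ) (ζ : M), IsPrimitiveRoot ζ (p ^ n) → 
    (n : ℝ) - D ≤
      ∑ t ∈ univ.filter (fun t : M ≃ₐ[F] M => t ζ ≠ ζ), wv v.1 p (t x0 - x0)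

open Classical in
/-- AV: averaging over functionals (finite combinatorics). -/
def T_AV : Prop := ∀ (G : Type) [Fintype G] (c : G → ℝ), (∀ t, 0 ≤ c t) → ∀ (p k r : ℕ), p.Prime →
  ∀ (u : G → Fin r → ZMod (p ^ k)) (b : G → ZMod (p ^ k)) (C : ℝ), (
      (∀ (lam : Fin r → ZMod (p ^ k)) (l : ℕ), l ≤ k →
        ∑ t ∈ univ.filter (fun t => ∑ i, lam i * u t i ≠ 0 ∧
          ((p ^ l : ℕ) : ZMod (p ^ k)) * ∑ i, lam i * u t i = 0), c t ≤ l) →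
      (∀ lam : Fin r → ZMod (p ^ k),
        ∑ t ∈ univ.filter (fun t => ∑ i, lam i * u t i + b t ≠ 0), c t ≤ k + C) →
      ∑ t ∈ univ.filter (fun t => u t ≠ 0 ∨ b t ≠ 0), c t ≤ k + C + 4)

open Classical in
/-- KM: upper bound of the mass of the automorphisms which move `p ^ k`-th roots. -/
def T_KM : Prop := ∀ (F M : Type) [Field F] [NumberField F] [Field M] [NumberField M]
  [Algebra F M] [FiniteDimensional F M] (p : ℕ), p.Prime → ∀ v : FinitePlace M, v.1 (p : M) < 1 →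
  ∀ x0 : M, IsGen F M v.1 x0 → ∀ (k : ℕ) (ζ : M), IsPrimitiveRoot ζ (p ^ k) →
  ∀ (s : ℕ) (η : Fin s → M), (∀ i, ∃ g : F, η i ^ (p ^ k) = algebraMap F M g) →
  (∀ i, v.1 (η i) = 1) → ∀ η0 : M, η0 ≠ 0 → (∃ g : F, η0 ^ (p ^ k) = algebraMap F M g) →
  v.1 η0 ≤ 1 → 
    ∑ t ∈ univ.filter
      (fun t : M ≃ₐ[F] M => t ζ ≠ ζ ∨ t η0 ≠ η0 ∨ ∃ i, t (η i) ≠ η i), wv v.1 p (t x0 - x0)
      ≤ k + (p : ℝ) ^ k * wv v.1 p η0 + 4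

open Classical in
/-- TM: upper bound of the mass of the automorphisms which move a `K'`-th root, `K'` prime to `p`. -/
def T_TM : Prop := ∀ (F M : Type) [Field F] [NumberField F] [Field M] [NumberField M]
  [Algebra F M] [FiniteDimensional F M] (p : ℕ), p.Prime → ∀ v : FinitePlace M, v.1 (p : M) < 1 →
  ∀ x0 : M, IsGen F M v.1 x0 → ∀ K' : ℕ, ¬ p ∣ K' → ∀ (y : M) (g : F), y ≠ 0 →
  y ^ K' = algebraMap F M g → v.1 y ≤ 1 → 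
    ∑ t ∈ univ.filter (fun t : M ≃ₐ[F] M => t y ≠ y), wv v.1 p (t x0 - x0)
      ≤ K' * wv v.1 p y

/-- ADP: generators adapted to a place. -/
def T_ADP : Prop := ∀ (F : Type) [Field F] [NumberField F] (p : ℕ), p.Prime →
  ∀ (r : ℕ) (γ : Fin r → F), (∀ i, γ i ≠ 0) → ∃ C : ℕ,
  ∀ (M : Type) [Field M] [NumberField M] [Algebra F M] (v : FinitePlace M), v.1 (p : M) < 1 →
  ∃ (e a : Fin r → ℤ), v.1 (algebraMap F M (∏ i, γ i ^ e i)) ≤ 1 ∧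
    wv v.1 p (algebraMap F M (∏ i, γ i ^ e i)) ≤ C ∧
    ∀ i, v.1 (algebraMap F M (γ i * (∏ j, γ j ^ e j) ^ (- a i))) = 1

open Classical in
/-- LI: lower bound of the mass of `V`. -/
def T_LI : Prop := ∀ (F : Type) [Field F] [NumberField F] (p : ℕ), p.Prime →
  ∀ (r : ℕ) (γ : Fin r → F), (∀ i, γ i ≠ 0) → ∃ C : ℕ,
  ∀ (M : Type) [Field M] [NumberField M] [Algebra F M] [FiniteDimensional F M] [IsGalois F M]
  (n1 n2 K' : ℕ), ¬ p ∣ K' → n1 ≤ n2 → ∀ ζ : M, IsPrimitiveRoot ζ (p ^ n2) →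
  (∀ i, ∃ θ : M, θ ^ (p ^ n1) = algebraMap F M (γ i)) →
  (∀ i, ∃ θ : M, θ ^ K' = algebraMap F M (γ i)) →
  ∀ v : FinitePlace M, v.1 (p : M) < 1 → ∀ x0 : M, IsGen F M v.1 x0 → 
    (n2 : ℝ) - n1 - C ≤
      ∑ t ∈ univ.filter (fun t : M ≃ₐ[F] M => t ∈ VV F M γ p n1 K' ∧ t ζ ≠ ζ),
        wv v.1 p (t x0 - x0)

/-- WT: a wild element moves every element of `M` only slightly. -/
def T_WT : Prop := ∀ (F M : Type) [Field F] [NumberField F] [Field M] [NumberField M]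
  [Algebra F M] [FiniteDimensional F M] (p : ℕ), p.Prime → ∀ v : FinitePlace M, v.1 (p : M) < 1 →
  ∀ x0 : M, IsGen F M v.1 x0 → ∀ (t : M ≃ₐ[F] M) (T : ℕ), 1 ≤ T → t ≠ 1 →
  1 / (T : ℝ) ≤ wv v.1 p (t x0 - x0) → ∀ (n1 : ℕ) (ζ : M), IsPrimitiveRoot ζ (p ^ n1) →
  t ζ = ζ → 1 ≤ n1 → 2 * T ≤ p ^ (n1 - 1) * (p - 1) → ∀ x : M, x ≠ 0 →
  v.1 (t x / x - 1) ≤ v.1 (p : M) ^ (1 / ((2 * T : ℕ) : ℝ))

/-- VC: `V` is small and has exponent `p ^ (n - n1)`. -/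
def T_VC : Prop := ∀ (F M : Type) [Field F] [NumberField F] [Field M] [NumberField M]
  [Algebra F M] [FiniteDimensional F M] (p : ℕ), p.Prime → ∀ (r : ℕ) (γ : Fin r → F),
  (∀ i, γ i ≠ 0) → ∀ n m n1 N' K' : ℕ, n1 ≤ m → m ≤ n → n ≤ 2 * n1 → ¬ p ∣ N' → K' ∣ N' →
  (∃ ζ : M, IsPrimitiveRoot ζ (p ^ n * N')) →
  (∀ i, ∃ θ : M, θ ^ (p ^ m * K') = algebraMap F M (γ i)) →
  IntermediateField.adjoin F
    {z : M | z ^ (p ^ n * N') = 1 ∨ ∃ i, z ^ (p ^ m * K') = algebraMap F M (γ i)} = ⊤ →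
  Nat.card (VV F M γ p n1 K') ≤ p ^ ((r + 1) * (n - n1)) ∧
    ∀ t ∈ VV F M γ p n1 K', t ^ (p ^ (n - n1)) = 1

/-- LVB: basic facts on the level fields. -/
def T_LVB : Prop := ∀ (F Ω : Type) [Field F] [NumberField F] [Field Ω] [Algebra F Ω]
  [IsAlgClosed Ω] [Algebra.IsAlgebraic F Ω] (r : ℕ) (γ : Fin r → F), (∀ i, γ i ≠ 0) →
  ∀ N K : ℕ, 0 < N → 0 < K →
  FiniteDimensional F (Lv F Ω γ N K) ∧ IsGalois F (Lv F Ω γ N K) ∧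
  (∃ ζ : Lv F Ω γ N K, IsPrimitiveRoot ζ N) ∧
  (∀ i, ∃ θ : Lv F Ω γ N K, θ ^ K = algebraMap F (Lv F Ω γ N K) (γ i)) ∧
  IntermediateField.adjoin F {z : Lv F Ω γ N K | z ^ N = 1 ∨
    ∃ i, z ^ K = algebraMap F (Lv F Ω γ N K) (γ i)} = ⊤ ∧
  (∀ N₁ K₁ : ℕ, N ∣ N₁ → K ∣ K₁ → K₁ ∣ N₁ → 0 < N₁ → Lv F Ω γ N K ≤ Lv F Ω γ N₁ K₁)

/-! ## The key statement -/

/-- KEY: an element of small height is multiplied by a root of unity by some element of `V`. -/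
def T_KEY : Prop := ∀ (F Ω : Type) [Field F] [NumberField F] [Field Ω] [CharZero Ω] [Algebra F Ω]
  [IsAlgClosed Ω] [Algebra.IsAlgebraic F Ω] (p : ℕ), p.Prime → ∀ (r : ℕ) (γ : Fin r → F),
  (∀ i, γ i ≠ 0) → ∃ C : ℕ, ∀ R : ℕ, ∃ (δ : ℝ) (lam n0 : ℕ), 0 < δ ∧
  ∀ n m n1 n2 N' K' : ℕ, Lev C R n0 p n m n1 n2 N' K' →
  ∀ β : Lv F Ω γ (p ^ n * N') (p ^ m * K'), β ≠ 0 → ∀ g : Ω, g ≠ 0 →
  (∃ (j : ℕ) (a : F), 0 < j ∧ g ^ j = algebraMap F Ω a) →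
  absLogHeight₁ ((β : Ω) * g) < δ →
  ∃ t : Lv F Ω γ (p ^ n * N') (p ^ m * K') ≃ₐ[F] Lv F Ω γ (p ^ n * N') (p ^ m * K'),
    t ∈ VV F (Lv F Ω γ (p ^ n * N') (p ^ m * K')) γ p n1 K' ∧
    (∃ ξ : Lv F Ω γ (p ^ n * N') (p ^ m * K'), ξ ^ (p ^ n2) = 1 ∧ t ξ ≠ ξ) ∧
    (t β) ^ (p ^ lam) = β ^ (p ^ lam)

/-! ## Kummer theory -/

/-- SAT: the group generated by the `γ i` has finite index in its saturation in `F`. -/
def T_SAT : Prop := ∀ (F : Type) [Field F] [NumberField F] (r : ℕ) (γ : Fin r → F), MInd F γ →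
  ∃ e : ℕ, 0 < e ∧ ∀ (z : F) (k : ℕ) (y : Fin r → ℤ), 0 < k → z ^ k = ∏ i, γ i ^ y i →
  ∀ i, (k : ℤ) ∣ e * y i

/-- CT: a cyclotomic automorphism which is far from the identity. -/
def T_CT : Prop := ∀ (F Ω : Type) [Field F] [NumberField F] [Field Ω] [Algebra F Ω]
  [IsAlgClosed Ω] [Algebra.IsAlgebraic F Ω] (p : ℕ), p.Prime → ∃ c : ℕ, ∀ n N' : ℕ, ¬ p ∣ N' →
  ∃ (τ : Ω ≃ₐ[F] Ω) (u : ℕ), 1 ≤ u ∧ ¬ p ^ (c + 1) ∣ (u - 1) ∧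
    (∀ z : Ω, z ^ (p ^ n) = 1 → τ z = z ^ u) ∧ (∀ z : Ω, z ^ N' = 1 → τ z = z)

/-- KT: roots of elements of the group in cyclotomic fields. -/
def T_KT : Prop := ∀ (F Ω : Type) [Field F] [NumberField F] [Field Ω] [Algebra F Ω]
  [IsAlgClosed Ω] [Algebra.IsAlgebraic F Ω] (p : ℕ), p.Prime → ∀ (r : ℕ) (γ : Fin r → F),
  MInd F γ → ∃ c : ℕ, ∀ n m N' : ℕ, m ≤ n → ¬ p ∣ N' → ∀ (x : Fin r → ℤ) (y : Ω),
  y ∈ IntermediateField.adjoin F {z : Ω | z ^ (p ^ n * N') = 1} →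
  y ^ (p ^ m) = ∏ i, (algebraMap F Ω (γ i)) ^ x i → ∀ i, ((p ^ m : ℕ) : ℤ) ∣ (p ^ c : ℕ) * x i

/-- SEP: separation of subgroups of `(ℤ/q)^r` by functionals. -/
def T_SEP : Prop := ∀ (q r : ℕ), 0 < q → ∀ (B : AddSubgroup (Fin r → ZMod q)) (w : Fin r → ZMod q),
  (∀ x : Fin r → ZMod q, (∀ b ∈ B, ∑ i, x i * b i = 0) → ∑ i, x i * w i = 0) → w ∈ B

/-- KG: the Kummer group is large. -/
def T_KG : Prop := ∀ (F Ω : Type) [Field F] [NumberField F] [Field Ω] [Algebra F Ω]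
  [IsAlgClosed Ω] [Algebra.IsAlgebraic F Ω] (p : ℕ), p.Prime → ∀ (r : ℕ) (γ : Fin r → F),
  MInd F γ → ∃ c : ℕ, ∀ n m N' K' : ℕ, m ≤ n → ¬ p ∣ N' → K' ∣ N' →
  ∀ (ζ : Lv F Ω γ (p ^ n * N') (p ^ m * K')) (θ : Fin r → Lv F Ω γ (p ^ n * N') (p ^ m * K')),
  IsPrimitiveRoot ζ (p ^ m) →
  (∀ i, θ i ^ (p ^ m) = algebraMap F (Lv F Ω γ (p ^ n * N') (p ^ m * K')) (γ i)) →
  ∀ b : Fin r → ℕ, ∃ g ∈ AA F (Lv F Ω γ (p ^ n * N') (p ^ m * K')) γ (p ^ n * N') K',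
    ∀ i, g (θ i) = ζ ^ (p ^ c * b i) * θ i

/-- TOP: the elements of the top Kummer group are high powers. -/
def T_TOP : Prop := ∀ (F Ω : Type) [Field F] [NumberField F] [Field Ω] [Algebra F Ω]
  [IsAlgClosed Ω] [Algebra.IsAlgebraic F Ω] (p : ℕ), p.Prime → ∀ (r : ℕ) (γ : Fin r → F),
  MInd F γ → ∃ c : ℕ, ∀ n m N' K' : ℕ, c + 1 ≤ m → m ≤ n → ¬ p ∣ N' → K' ∣ N' →
  ∀ g ∈ AA F (Lv F Ω γ (p ^ n * N') (p ^ m * K')) γ (p ^ n * N') K',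
    (∀ (y : Lv F Ω γ (p ^ n * N') (p ^ m * K')) (i : Fin r), y ^ (p ^ (m - 1)) =
      algebraMap F (Lv F Ω γ (p ^ n * N') (p ^ m * K')) (γ i) → g y = y) →
    ∃ g' ∈ AA F (Lv F Ω γ (p ^ n * N') (p ^ m * K')) γ (p ^ n * N') K', g = g' ^ (p ^ (m - 1 - c))

/-- EXT: extension of characters of elementary abelian groups. -/
def T_EXT : Prop := ∀ (A : Type) [Group A] (p : ℕ), p.Prime → ∀ (r : ℕ)
  (s : Fin r → A →* Multiplicative (ZMod p)) (χ : A →* Multiplicative (ZMod p)),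
  (∀ a : A, (∀ i, s i a = 1) → χ a = 1) → ∃ x : Fin r → ℕ, ∀ a : A, χ a = ∏ i, s i a ^ x i

/-! ## The descent -/

/-- STC: the cyclotomic step. -/
def T_STC : Prop := ∀ (F Ω : Type) [Field F] [NumberField F] [Field Ω] [CharZero Ω] [Algebra F Ω]
  [IsAlgClosed Ω] [Algebra.IsAlgebraic F Ω] (p : ℕ), p.Prime → ∀ (r : ℕ) (γ : Fin r → F),
  (∀ i, γ i ≠ 0) → ∃ (R n0 : ℕ) (δ : ℝ), 0 < δ ∧ ∀ n m N' K' : ℕ, n0 ≤ n → m + R ≤ n → ¬ p ∣ N' →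
  K' ∣ N' → ∀ α : Ω, Rep F Ω γ (p ^ n * N') (p ^ m * K') α → absLogHeight₁ α < δ →
  Rep F Ω γ (p ^ (n - 1) * N') (p ^ m * K') α

/-- CM: conjugation by `t` is a power on the Kummer group. -/
def T_CM : Prop := ∀ (F M : Type) [Field F] [Field M] [Algebra F M] (p : ℕ), p.Prime →
  ∀ (r : ℕ) (γ : Fin r → F), (∀ i, γ i ≠ 0) → ∀ n m n1 N' K' : ℕ, m ≤ n → ¬ p ∣ N' → K' ∣ N' →
  IntermediateField.adjoin F
    {z : M | z ^ (p ^ n * N') = 1 ∨ ∃ i, z ^ (p ^ m * K') = algebraMap F M (γ i)} = ⊤ →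
  ∀ t ∈ VV F M γ p n1 K', ∀ g ∈ AA F M γ (p ^ n * N') K', ∀ u : ℕ,
  (∀ z : M, z ^ (p ^ n) = 1 → t z = z ^ u) → t * g * t⁻¹ = g ^ u ∧ g ^ (p ^ m) = 1

/-- SK1: the Kummer group acts through roots of unity. -/
def T_SK1 : Prop := ∀ (F Ω : Type) [Field F] [NumberField F] [Field Ω] [CharZero Ω] [Algebra F Ω]
  [IsAlgClosed Ω] [Algebra.IsAlgebraic F Ω] (p : ℕ), p.Prime → ∀ (r : ℕ) (γ : Fin r → F),
  (∀ i, γ i ≠ 0) → ∃ C : ℕ, ∀ R : ℕ, ∃ (δ : ℝ) (n0 : ℕ), 0 < δ ∧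
  ∀ n m n1 n2 N' K' : ℕ, Lev C R n0 p n m n1 n2 N' K' → 1 ≤ n2 →
  ∀ β : Lv F Ω γ (p ^ n * N') (p ^ m * K'), β ≠ 0 → ∀ g : Ω, g ≠ 0 →
  (∃ (j : ℕ) (a : F), 0 < j ∧ g ^ j = algebraMap F Ω a) →
  absLogHeight₁ ((β : Ω) * g) < δ →
  ∀ h ∈ AA F (Lv F Ω γ (p ^ n * N') (p ^ m * K')) γ (p ^ n * N') K',
    ((h ^ (p ^ (n2 - 1))) β) ^ (p ^ R) = β ^ (p ^ R)

/-- SK2: correction of an element on which the top Kummer group acts through roots of unity. -/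
def T_SK2 : Prop := ∀ (F Ω : Type) [Field F] [NumberField F] [Field Ω] [CharZero Ω] [Algebra F Ω]
  [IsAlgClosed Ω] [Algebra.IsAlgebraic F Ω] (p : ℕ), p.Prime → ∀ (r : ℕ) (γ : Fin r → F),
  (∀ i, γ i ≠ 0) → ∀ n m R N' K' : ℕ, 1 ≤ m → m ≤ n → R ≤ n → ¬ p ∣ N' → K' ∣ N' →
  ∀ β : Lv F Ω γ (p ^ n * N') (p ^ m * K'), β ≠ 0 →
  (∀ h ∈ AA F (Lv F Ω γ (p ^ n * N') (p ^ m * K')) γ (p ^ n * N') K',
    (∀ (y : Lv F Ω γ (p ^ n * N') (p ^ m * K')) (i : Fin r), y ^ (p ^ (m - 1)) =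
      algebraMap F (Lv F Ω γ (p ^ n * N') (p ^ m * K')) (γ i) → h y = y) →
    (h β) ^ (p ^ R) = β ^ (p ^ R)) →
  Rep F Ω γ (p ^ n * N') (p ^ (m - 1) * K') (β : Ω)

/-- STK: the Kummer step. -/
def T_STK : Prop := ∀ (F Ω : Type) [Field F] [NumberField F] [Field Ω] [CharZero Ω] [Algebra F Ω]
  [IsAlgClosed Ω] [Algebra.IsAlgebraic F Ω] (p : ℕ), p.Prime → ∀ (r : ℕ) (γ : Fin r → F),
  MInd F γ → ∀ R : ℕ, ∃ (m0 : ℕ) (δ : ℝ), 0 < δ ∧ ∀ n m N' K' : ℕ, m0 ≤ m → m ≤ n → n ≤ m + R →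
  ¬ p ∣ N' → K' ∣ N' → ∀ α : Ω, Rep F Ω γ (p ^ n * N') (p ^ m * K') α → absLogHeight₁ α < δ →
  Rep F Ω γ (p ^ n * N') (p ^ (m - 1) * K') α

/-- DP: the descent at one prime. -/
def T_DP : Prop := ∀ (F Ω : Type) [Field F] [NumberField F] [Field Ω] [CharZero Ω] [Algebra F Ω]
  [IsAlgClosed Ω] [Algebra.IsAlgebraic F Ω] (p : ℕ), p.Prime → ∀ (r : ℕ) (γ : Fin r → F),
  MInd F γ → ∃ (k : ℕ) (δ : ℝ), 0 < δ ∧ ∀ n m N' K' : ℕ, m ≤ n → ¬ p ∣ N' → K' ∣ N' →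
  ∀ α : Ω, Rep F Ω γ (p ^ n * N') (p ^ m * K') α → absLogHeight₁ α < δ →
  Rep F Ω γ (p ^ k * N') (p ^ k * K') α

/-- DS: the descent at finitely many primes. -/
def T_DS : Prop := ∀ (F Ω : Type) [Field F] [NumberField F] [Field Ω] [CharZero Ω] [Algebra F Ω]
  [IsAlgClosed Ω] [Algebra.IsAlgebraic F Ω] (r : ℕ) (γ : Fin r → F), MInd F γ →
  ∀ S : Finset ℕ, (∀ p ∈ S, p.Prime) → ∃ (N0 : ℕ) (δ : ℝ), 0 < N0 ∧ 0 < δ ∧ ∀ N K : ℕ, 0 < N →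
  K ∣ N → (∀ p : ℕ, p.Prime → p ∣ K → p ∈ S) → ∀ α : Ω, Rep F Ω γ N K α → absLogHeight₁ α < δ →
  ∃ N' : ℕ, (∀ p ∈ S, ¬ p ∣ N') ∧ N0.Coprime N' ∧ Rep F Ω γ (N0 * N') N0 α

/-! ## The last step -/

/-- FR1: a Frobenius substitution common to all the places over `ℓ`. -/
def T_FR1 : Prop := ∀ (K : Type) [Field K] [NumberField K] (ℓ : ℕ), ℓ.Prime →
  ∀ (M : Type) [Field M] [NumberField M] [Algebra K M] (N' : ℕ), ¬ ℓ ∣ N' → ∀ ζ : M,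
  IsPrimitiveRoot ζ N' → IntermediateField.adjoin K {ζ} = ⊤ →
  ∃ σ : M ≃ₐ[K] M, ∀ v : FinitePlace M, v.1 (ℓ : M) < 1 → ∀ x : M,
    v.1 (σ x - x ^ (ℓ ^ (Module.finrank ℚ K).factorial)) ≤
      v.1 (ℓ : M) ^ (1 / (Module.finrank ℚ K : ℝ)) *
        (max (v.1 (σ x)) 1 * max (v.1 (x ^ (ℓ ^ (Module.finrank ℚ K).factorial))) 1)

/-- FR: heights in `K (μ)`, roots of unity of order prime to `ℓ`. -/
def T_FR : Prop := ∀ (K Ω : Type) [Field K] [NumberField K] [Field Ω] [CharZero Ω] [Algebra K Ω]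
  [IsAlgClosed Ω] [Algebra.IsAlgebraic K Ω] (ℓ : ℕ), ℓ.Prime → ∃ c : ℝ, 0 < c ∧ ∀ N' : ℕ, ¬ ℓ ∣ N' →
  ∀ β ∈ IntermediateField.adjoin K {z : Ω | z ^ N' = 1}, β ≠ 0 →
  (∀ n : ℕ, 0 < n → β ^ n ≠ 1) → c ≤ absLogHeight₁ β

/-- DIR: Dirichlet's theorem on simultaneous approximation. -/
def T_DIR : Prop := ∀ (r Q : ℕ), 0 < Q → ∀ ξ : Fin r → ℝ, ∃ (k : ℕ) (a : Fin r → ℤ), 1 ≤ k ∧
  k ≤ Q ^ r ∧ ∀ i, |k * ξ i - a i| ≤ 1 / (Q : ℝ)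

/-- FIN: the last step. -/
def T_FIN : Prop := ∀ (F Ω : Type) [Field F] [NumberField F] [Field Ω] [CharZero Ω] [Algebra F Ω]
  [IsAlgClosed Ω] [Algebra.IsAlgebraic F Ω] (r : ℕ) (γ : Fin r → F), MInd F γ →
  ∀ (ℓ N0 : ℕ), ℓ.Prime → 0 < N0 → ∃ c : ℝ, 0 < c ∧ ∀ N' : ℕ, ¬ ℓ ∣ N' → N0.Coprime N' →
  ∀ α : Ω, Rep F Ω γ (N0 * N') N0 α → α ∉ Dv F Ω γ → c ≤ absLogHeight₁ α

/-- MB: the theorem for independent generators. -/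
def T_MB : Prop := ∀ (F Ω : Type) [Field F] [NumberField F] [Field Ω] [CharZero Ω] [Algebra F Ω]
  [IsAlgClosed Ω] [Algebra.IsAlgebraic F Ω] (r : ℕ) (γ : Fin r → F), MInd F γ →
  ∀ S : Finset ℕ, (∀ p ∈ S, p.Prime) → S.Nonempty → ∃ c : ℝ, 0 < c ∧ ∀ N K : ℕ, 0 < N → K ∣ N →
  (∀ p : ℕ, p.Prime → p ∣ K → p ∈ S) → ∀ α : Ω, Rep F Ω γ N K α → α ∉ Dv F Ω γ →
  c ≤ absLogHeight₁ α

/-- BAS: a finitely generated group has an independent system with the same division group. -/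
def T_BAS : Prop := ∀ (Γ : Subgroup (AlgebraicClosure ℚ)ˣ), Γ.FG →
  ∃ (r : ℕ) (g : Fin r → (AlgebraicClosure ℚ)ˣ), (∀ i, g i ∈ Γ) ∧
    (∀ x : Fin r → ℤ, ∏ i, g i ^ x i = 1 → x = 0) ∧
    ∀ a ∈ Γ, ∃ (x : Fin r → ℤ) (ξ : (AlgebraicClosure ℚ)ˣ) (j : ℕ), 0 < j ∧ ξ ^ j = 1 ∧
      a = ξ * ∏ i, g i ^ x i

/-- MAIN: the result. -/
def T_MAIN : Prop := ∀ (Γ : Subgroup (AlgebraicClosure ℚ)ˣ), Γ.FG →
  ∀ (F : IntermediateField ℚ (AlgebraicClosure ℚ)), FiniteDimensional ℚ F → ∀ S : Finset ℕ,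
  ∃ c : ℝ, 0 < c ∧ ∀ β ∈ IntermediateField.adjoin ℚ ((F : Set (AlgebraicClosure ℚ)) ∪
      {z | ∃ n : ℕ, 0 < n ∧ z ^ n = 1} ∪
      {z | ∃ n : ℕ, 0 < n ∧ (∀ p : ℕ, p.Prime → p ∣ n → p ∈ S) ∧
        ∃ g ∈ Γ, z ^ n = (g : AlgebraicClosure ℚ)}),
  ∀ γ : AlgebraicClosure ℚ, (∃ n : ℕ, 0 < n ∧ ∃ g ∈ Γ, γ ^ n = (g : AlgebraicClosure ℚ)) →
  β * γ ≠ 0 → (¬ ∃ n : ℕ, 0 < n ∧ ∃ g ∈ Γ, (β * γ) ^ n = (g : AlgebraicClosure ℚ)) →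
  c ≤ absLogHeight₁ (β * γ)

end Pool.Agent.H24.RD
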