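import Pool.Agent.H24.RD.Targets

set_option autoImplicit false

/-!
# (DS) the descent at finitely many primes
-/

namespace Pool.Agent.H24.RD

open NumberField Height Finset

theorem ds_aux (hDP : T_DP) (F Ω : Type) [Field F] [NumberField F] [Field Ω] [CharZero Ω]
    [Algebra F Ω] [IsAlgClosed Ω] [Algebra.IsAlgebraic F Ω] (r : ℕ) (γ : Fin r → F)
    (hγ : MInd F γ) (S : Finset ℕ) : (∀ p ∈ S, p.Prime) →
    ∃ (N0 : ℕ) (δ : ℝ), 0 < N0 ∧ (∀ p : ℕ, p.Prime → p ∣ N0 → p ∈ S) ∧ 0 < δ ∧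
      ∀ N K : ℕ, 0 < N → K ∣ N → ∀ α : Ω, Rep F Ω γ N K α → absLogHeight₁ α < δ →
      ∃ N' K' : ℕ, 0 < N' ∧ K' ∣ N' ∧ K' ∣ K ∧ (∀ p ∈ S, ¬ p ∣ N') ∧
        Rep F Ω γ (N0 * N') (N0 * K') α := by
  classical
  induction S using Finset.induction_on with
  | empty =>
    intro _
    refine ⟨1, 1, one_pos, ?_, one_pos, ?_⟩
    · intro p hp h
      exact absurd (Nat.dvd_one.mp h) hp.one_lt.ne'
    · intro N K hN hK α hα _
      refine ⟨N, K, hN, hK, dvd_rfl, by simp, ?_⟩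
      simpa using hα
  | insert q S hqS ih =>
    intro hS
    obtain ⟨N0, δ, hN0, hp0, hδ, hrep⟩ := ih fun p hp => hS p (Finset.mem_insert_of_mem hp)
    have hq : q.Prime := hS q (Finset.mem_insert_self q S)
    obtain ⟨k, δ', hδ', hDq⟩ := hDP F Ω q hq r γ hγ
    have hqN0 : ¬ q ∣ N0 := fun h => hqS (hp0 q hq h)
    refine ⟨q ^ k * N0, min δ δ', Nat.mul_pos (pow_pos hq.pos k) hN0, ?_, lt_min hδ hδ', ?_⟩
    · intro p hp h
      rcases hp.dvd_mul.mp h with h | h
      · rw [(Nat.prime_dvd_prime_iff_eq hp hq).mp (hp.dvd_of_dvd_pow h)]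
        exact Finset.mem_insert_self q S
      · exact Finset.mem_insert_of_mem (hp0 p hp h)
    · intro N K hN hK α hα hh
      obtain ⟨N1, K1, hN1, hKN1, hK1, hS1, hR1⟩ :=
        hrep N K hN hK α hα (hh.trans_le (min_le_left _ _))
      have hK1pos : 0 < K1 := Nat.pos_of_dvd_of_pos hKN1 hN1
      obtain ⟨n, N2, hqN2, hN1e⟩ := Nat.exists_eq_pow_mul_and_not_dvd hN1.ne' q hq.ne_one
      obtain ⟨m, K2, hqK2, hK1e⟩ := Nat.exists_eq_pow_mul_and_not_dvd hK1pos.ne' q hq.ne_one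
      have hN2 : 0 < N2 := by
        rcases Nat.eq_zero_or_pos N2 with h | h
        · rw [h] at hqN2
          exact absurd (dvd_zero q) hqN2
        · exact h
      have hmn : m ≤ n := by
        have h1 : q ^ m ∣ q ^ n * N2 := by
          rw [← hN1e]
          exact (Dvd.intro K2 hK1e.symm).trans hKN1
        have h2 : (q ^ m).Coprime N2 :=
          Nat.Coprime.pow_left m ((Nat.Prime.coprime_iff_not_dvd hq).mpr hqN2)
        exact (Nat.pow_dvd_pow_iff_le_right hq.one_lt).mp (h2.dvd_of_dvd_mul_right h1)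
      have hK2N2 : K2 ∣ N2 := by
        have h1 : K2 ∣ q ^ n * N2 := by
          rw [← hN1e]
          exact (Dvd.intro_left (q ^ m) hK1e.symm).trans hKN1
        have h2 : K2.Coprime (q ^ n) :=
          Nat.Coprime.pow_right n ((Nat.Prime.coprime_iff_not_dvd hq).mpr hqK2).symm
        exact h2.dvd_of_dvd_mul_left h1
      have hR2 : Rep F Ω γ (q ^ n * (N0 * N2)) (q ^ m * (N0 * K2)) α := by
        have e1 : q ^ n * (N0 * N2) = N0 * N1 := by rw [hN1e]; ring
        have e2 : q ^ m * (N0 * K2) = N0 * K1 := by rw [hK1e]; ring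
        rw [e1, e2]
        exact hR1
      have hq2 : ¬ q ∣ N0 * N2 := by
        rw [hq.dvd_mul]
        tauto
      have hR3 := hDq n m (N0 * N2) (N0 * K2) hmn hq2 (Nat.mul_dvd_mul_left N0 hK2N2) α hR2
        (hh.trans_le (min_le_right _ _))
      refine ⟨N2, K2, hN2, hK2N2, ?_, ?_, ?_⟩
      · exact (Dvd.intro_left (q ^ m) hK1e.symm).trans hK1
      · intro p hp
        rcases Finset.mem_insert.mp hp with h | h
        · rw [h]
          exact hqN2
        · intro h2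
          exact hS1 p h (by rw [hN1e]; exact Dvd.dvd.mul_left h2 _)
      · have e1 : q ^ k * N0 * N2 = q ^ k * (N0 * N2) := by ring
        have e2 : q ^ k * N0 * K2 = q ^ k * (N0 * K2) := by ring
        rw [e1, e2]
        exact hR3

theorem pf_DS : T_DP → T_DS := by
  intro hDP F Ω _ _ _ _ _ _ _ r γ hγ S hS
  obtain ⟨N0, δ, hN0, hp0, hδ, hrep⟩ := ds_aux hDP F Ω r γ hγ S hS
  refine ⟨N0, δ, hN0, hδ, ?_⟩
  intro N K hN hK hKS α hα hh
  obtain ⟨N', K', hN', hKN', hKK, hSN', hR⟩ := hrep N K hN hK α hα hh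
  have hcop : N0.Coprime N' := by
    by_contra h
    obtain ⟨p, hp, h1, h2⟩ := Nat.Prime.not_coprime_iff_dvd.mp h
    exact hSN' p (hp0 p hp h1) h2
  have hK1 : K' = 1 := by
    by_contra h
    obtain ⟨p, hp, h1⟩ := Nat.exists_prime_and_dvd h
    exact hSN' p (hKS p hp (h1.trans hKK)) (h1.trans hKN')
  refine ⟨N', hSN', hcop, ?_⟩
  rw [hK1, mul_one] at hR
  exact hR

end Pool.Agent.H24.RD
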