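import Pool.Agent.H24.RD.Targets
import Pool.Agent.H24.RD.DS
import Pool.Agent.H24.RD.MAIN
import Pool.Agent.H3.RD.STK
import Pool.Agent.H3.RD.TOP
import Pool.Agent.H13.RD.DP
import Pool.Agent.H13.RD.MB
import Pool.Agent.H14.RD.AV
import Pool.Agent.H14.RD.TR
import Pool.Agent.H30.RD.KEY
import Pool.Agent.H30.RD.LI
import Pool.Agent.H30.RD.SK1
import Pool.Agent.H30.RD.STC
import Pool.Agent.H31.RD.CT
import Pool.Agent.H31.RD.KM
import Pool.Agent.H31.RD.KT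
import Pool.Agent.H31.RD.MS
import Pool.Agent.H31.RD.TRC
import Pool.Agent.H47.RD.VC
import Pool.Agent.H50.RD.ABS
import Pool.Agent.H59.RD.SEP
import Pool.Agent.H59.RD.SK2
import Pool.Agent.H65.RD.HA
import Pool.Agent.H65.RD.HB
import Pool.Agent.H65.RD.HF
import Pool.Agent.H67.RD.CO
import Pool.Agent.H67.RD.GEN
import Pool.Agent.H67.RD.PF
import Pool.Agent.H67.RD.POW
import Pool.Agent.H67.RD.VB
import Pool.Agent.H68.RD.ADP
import Pool.Agent.H68.RD.LVB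
import Pool.Agent.H77.RD.FR1
import Pool.Agent.H81.RD.FIN
import Pool.Agent.H81.RD.WT
import Pool.Agent.H84.RD.FR
import Pool.Agent.H84.RD.SAT
import Pool.Agent.H85.RD.BAS
import Pool.Agent.H85.RD.CM
import Pool.Agent.H85.RD.DIR
import Pool.Agent.H85.RD.TM
import Pool.Agent.H86.RD.KG
import Pool.Agent.H89.RD.EXT

/-!
# MP_c65535_nt: assembly of the degree one form of Rémond's conjecture for finitely many primes
-/

set_option autoImplicit false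

namespace Pool.Agent.H24.RD

theorem aHF : T_HF := Pool.Agent.H65.RD.pf_HF
theorem aHA : T_HA := Pool.Agent.H65.RD.pf_HA aHF
theorem aHB : T_HB := Pool.Agent.H65.RD.pf_HB aHA
theorem aVB : T_VB := Pool.Agent.H67.RD.pf_VB
theorem aABS : T_ABS := Pool.Agent.H50.RD.pf_ABS
theorem aCO : T_CO := Pool.Agent.H67.RD.pf_CO aVB aABS
theorem aAV : T_AV := Pool.Agent.H14.RD.pf_AV
theorem aTR : T_TR := Pool.Agent.H14.RD.pf_TR
theorem aTRC : T_TRC := Pool.Agent.H31.RD.pf_TRC aTR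
theorem aMS : T_MS := Pool.Agent.H31.RD.pf_MS aVB aTRC
theorem aKM : T_KM := Pool.Agent.H31.RD.KM.pf_KM aVB aCO aAV
theorem aTM : T_TM := Pool.Agent.H85.RD.pf_TM aVB aCO
theorem aADP : T_ADP := Pool.Agent.H68.RD.pf_ADP aVB
theorem aLI : T_LI := Pool.Agent.H30.RD.pf_LI aVB aMS aKM aTM aADP
theorem aPF : T_PF := Pool.Agent.H67.RD.pf_PF
theorem aPOW : T_POW := Pool.Agent.H67.RD.pf_POW
theorem aGEN : T_GEN := Pool.Agent.H67.RD.pf_GEN
theorem aWT : T_WT := Pool.Agent.H81.RD.pf_WT aVB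
theorem aVC : T_VC := Pool.Agent.H47.RD.pf_VC
theorem aLVB : T_LVB := Pool.Agent.H68.RD.pf_LVB
theorem aKEY : T_KEY := Pool.Agent.H30.RD.pf_KEY aHA aHB aPF aPOW aGEN aLI aWT aVC aLVB
theorem aSTC : T_STC := Pool.Agent.H30.RD.pf_STC aLVB aKEY
theorem aCM : T_CM := Pool.Agent.H85.RD.pf_CM
theorem aSK1 : T_SK1 := Pool.Agent.H30.RD.pf_SK1 aHB aLVB aKEY aVC aCM
theorem aSAT : T_SAT := Pool.Agent.H84.RDS.pf_SAT
theorem aCT : T_CT := Pool.Agent.H31.RD.pf_CT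
theorem aKT : T_KT := Pool.Agent.H31.RD.pf_KT aSAT aCT
theorem aSEP : T_SEP := Pool.Agent.H59.RD.pf_SEP
theorem aKG : T_KG := Pool.Agent.H86.RD.pf_KG aLVB aKT aSEP
theorem aTOP : T_TOP := Pool.Agent.H3.RD.pf_TOP aLVB aKG
theorem aEXT : T_EXT := Pool.Agent.H89.RD.pf_EXT
theorem aSK2 : T_SK2 := Pool.Agent.H59.RD.pf_SK2 aLVB aEXT
theorem aSTK : T_STK := Pool.Agent.H3.RD.pf_STK aSK1 aTOP aSK2
theorem aDP : T_DP := Pool.Agent.H13.RD.pf_DP aLVB aSTC aSTK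
theorem aDS : T_DS := pf_DS aDP
theorem aFR1 : T_FR1 := Pool.Agent.H77.RD.pf_FR1
theorem aFR : T_FR := Pool.Agent.H84.RDF.pf_FR aHA aHB aPF aPOW aFR1
theorem aDIR : T_DIR := Pool.Agent.H85.RD.pf_DIR
theorem aFIN : T_FIN := Pool.Agent.H81.RD.pf_FIN aHA aHB aLVB aFR aDIR
theorem aMB : T_MB := Pool.Agent.H13.RD.pf_MB aDS aFIN
theorem aBAS : T_BAS := Pool.Agent.H85.RD.pf_BAS
theorem aMAIN : T_MAIN := pf_MAIN aMB aBAS aLVB aHB

end Pool.Agent.H24.RD
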