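import Mathlib

set_option autoImplicit false

/-!
# Heights in Kummer towers at finitely many primes: definitions

Everything here is elementary: `Lv` is the field generated by the `N`-th roots of unity and the
`K`-th roots of the `γ i`, `Dv` the division group, `Rep` says that a number is a product of an
element of `Lv` and an element of `Dv`.
-/

namespace Pool.Agent.H24.RD

open NumberField Height Finset

/-- Normalised additive valuation (for `v p < 1`): `wv v p p = 1`. -/
noncomputable def wv {M : Type} [Field M] (v : AbsoluteValue M ℝ) (p : ℕ) (x : M) : ℝ :=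
  Real.log (v x) / Real.log (v (p : M))

/-- `x0` generates the ring of `v`-integers locally, and is separated from its conjugates at the
other places. -/
structure IsGen (F M : Type) [Field F] [Field M] [Algebra F M] (v : AbsoluteValue M ℝ) (x0 : M) :
    Prop where
  int : IsIntegral ℤ x0
  dec : ∀ t : M ≃ₐ[F] M, (∀ x, v (t x) = v x) ∨ v (t x0 - x0) = 1
  den : ∀ y : M, v y ≤ 1 → ∀ ε : ℝ, 0 < ε → ∃ Y : Polynomial ℤ, v (y - Polynomial.aeval x0 Y) ≤ ε
  sep : ∀ t : M ≃ₐ[F] M, t x0 = x0 → t = 1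

/-- The subgroup `V`: automorphisms which fix the roots of unity of order prime to `p`, the
`p ^ n1`-th roots of unity, the `p ^ n1`-th roots and the `K'`-th roots of the `γ i`. -/
def VV (F M : Type) [Field F] [Field M] [Algebra F M] {r : ℕ} (γ : Fin r → F) (p n1 K' : ℕ) :
    Subgroup (M ≃ₐ[F] M) where
  carrier := {t | ∀ y : M, ((∃ a : ℕ, ¬ p ∣ a ∧ y ^ a = 1) ∨ y ^ (p ^ n1) = 1 ∨
    (∃ i, y ^ (p ^ n1) = algebraMap F M (γ i)) ∨ (∃ i, y ^ K' = algebraMap F M (γ i))) → t y = y}
  mul_mem' := by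
    intro s t hs ht y hy
    rw [AlgEquiv.mul_apply, ht y hy, hs y hy]
  one_mem' := by
    intro y _
    rfl
  inv_mem' := by
    intro t ht y hy
    have h := ht y hy
    calc t⁻¹ y = t⁻¹ (t y) := by rw [h]
      _ = y := by
        rw [← AlgEquiv.mul_apply, inv_mul_cancel]
        rfl

/-- The subgroup `A`: automorphisms which fix the `N`-th roots of unity and the `K'`-th roots of the
`γ i`. -/
def AA (F M : Type) [Field F] [Field M] [Algebra F M] {r : ℕ} (γ : Fin r → F) (N K' : ℕ) :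
    Subgroup (M ≃ₐ[F] M) where
  carrier := {t | ∀ y : M, (y ^ N = 1 ∨ (∃ i, y ^ K' = algebraMap F M (γ i))) → t y = y}
  mul_mem' := by
    intro s t hs ht y hy
    rw [AlgEquiv.mul_apply, ht y hy, hs y hy]
  one_mem' := by
    intro y _
    rfl
  inv_mem' := by
    intro t ht y hy
    have h := ht y hy
    calc t⁻¹ y = t⁻¹ (t y) := by rw [h]
      _ = y := by
        rw [← AlgEquiv.mul_apply, inv_mul_cancel]
        rfl

/-- The level field. -/
noncomputable def Lv (F Ω : Type) [Field F] [Field Ω] [Algebra F Ω] {r : ℕ} (γ : Fin r → F)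
    (N K : ℕ) : IntermediateField F Ω :=
  IntermediateField.adjoin F {z : Ω | z ^ N = 1 ∨ ∃ i, z ^ K = algebraMap F Ω (γ i)}

/-- The division group of the group generated by the `γ i`. -/
def Dv (F Ω : Type) [Field F] [Field Ω] [Algebra F Ω] {r : ℕ} (γ : Fin r → F) : Set Ω :=
  {g | g ≠ 0 ∧ ∃ n : ℕ, 0 < n ∧ ∃ x : Fin r → ℤ, g ^ n = ∏ i, (algebraMap F Ω (γ i)) ^ (x i)}

/-- `α` is a product of a nonzero element of the level field and of an element of the division
group. -/
def Rep (F Ω : Type) [Field F] [Field Ω] [Algebra F Ω] {r : ℕ} (γ : Fin r → F)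
    (N K : ℕ) (α : Ω) : Prop :=
  ∃ β ∈ Lv F Ω γ N K, β ≠ 0 ∧ ∃ g ∈ Dv F Ω γ, α = β * g

/-- Multiplicative independence. -/
def MInd (F : Type) [Field F] {r : ℕ} (γ : Fin r → F) : Prop :=
  (∀ i, γ i ≠ 0) ∧ ∀ x : Fin r → ℤ, ∏ i, γ i ^ x i = 1 → x = 0

/-- The admissible systems of levels. -/
structure Lev (C R n0 p n m n1 n2 N' K' : ℕ) : Prop where
  h0 : n0 ≤ n1
  h1 : n2 = n1 + C
  h2 : n2 ≤ n
  h3 : n1 ≤ m
  h4 : m ≤ n
  h5 : n ≤ n1 + R
  h6 : ¬ p ∣ N'
  h7 : K' ∣ N'

end Pool.Agent.H24.RD
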