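import Pool.Agent.H82.RD.Targets
import Pool.Agent.H82.RD.Basic

set_option autoImplicit false

namespace Pool.Agent.H24.RD

open Pool.Agent.H82.RD

private theorem prod_log {q e : ℕ} {ζ : ℕ → ℕ} {ι : Type} (I : Finset ι) (l k : ι → ℕ)
    (hζ : ∀ m : ℕ, m.Coprime q → m ^ ph q ≡ (1 + qh q) ^ ζ m [MOD q ^ e])
    (hl : ∀ i ∈ I, (l i).Coprime q) :
    (∏ i ∈ I, l i ^ k i) ^ ph q ≡ (1 + qh q) ^ (∑ i ∈ I, k i * ζ (l i)) [MOD q ^ e] := by
  classical
  induction I using Finset.induction_on with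
  | empty => simp only [Finset.prod_empty, Finset.sum_empty, one_pow, pow_zero]; rfl
  | insert a s ha ih =>
    rw [Finset.prod_insert ha, Finset.sum_insert ha, mul_pow, pow_add]
    refine Nat.ModEq.mul ?_ (ih fun i hi => hl i (Finset.mem_insert_of_mem hi))
    rw [← pow_mul, mul_comm (k a) (ph q), pow_mul, mul_comm (k a) (ζ (l a)), pow_mul]
    exact (hζ _ (hl a (Finset.mem_insert_self a s))).pow _

private theorem prod_cop {q : ℕ} {ι : Type} (I : Finset ι) (l k : ι → ℕ)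
    (hl : ∀ i ∈ I, (l i).Coprime q) : (∏ i ∈ I, l i ^ k i).Coprime q :=
  Nat.Coprime.prod_left fun i hi => (hl i hi).pow_left _

theorem pf_LPR (hLDL : T_LDL) : T_LPR := by
  intro q e ζ ι I l k k' hq hζ hl hmod
  obtain ⟨h1, h2, -⟩ := hLDL q e hq
  obtain ⟨z, hz⟩ := h1 _ _ (prod_cop I l k hl) (prod_cop I l k' hl) hmod
  refine ⟨z, hz, h2 _ _ ?_⟩
  refine (prod_log I l k hζ hl).symm.trans ((hz.pow (ph q)).trans ?_)
  rw [mul_pow, pow_add, ← pow_mul, mul_comm z (ph q)]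
  exact (prod_log I l k' hζ hl).mul_right _

end Pool.Agent.H24.RD
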